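import Mathlib

/-!
# Interpolatory spline quadrature: the bound `‖w‖₁ ≤ ‖c‖ I(1)` fails, already for density one

Knots are indexed from `0`: a knot vector is a nondecreasing `ξ : ℕ → ℝ` of which the entries
`ξ 0, …, ξ (n + p)` are used, the splines are `B_0, …, B_{n-1}` and the basic interval is
`[ξ p, ξ n]`.
-/

open MeasureTheory Set

namespace Pool.Agent.Results.MP_836f85_an.ConstantDensity

/-- Cox–de Boor recursion for the B-splines with knots `ξ`, normalised to be a partition of unity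
on the basic interval with right end `r`; at `r` the splines take their limits from the left.
`bspline ξ r d i` is the `i`-th B-spline of degree `d` (with the convention `a / 0 = 0`). -/
noncomputable def bspline (ξ : ℕ → ℝ) (r : ℝ) : ℕ → ℕ → ℝ → ℝ
  | 0, i, x => if (x < r ∧ ξ i ≤ x ∧ x < ξ (i + 1)) ∨ (x = r ∧ ξ i < r ∧ r ≤ ξ (i + 1))
      then 1 else 0
  | d + 1, i, x => (x - ξ i) / (ξ (i + d + 1) - ξ i) * bspline ξ r d i x
      + (ξ (i + d + 2) - x) / (ξ (i + d + 2) - ξ (i + 1)) * bspline ξ r d (i + 1) x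

/-- The spline `∑ c_j B_j` of degree `p`. -/
noncomputable def spline (p n : ℕ) (ξ : ℕ → ℝ) (c : Fin n → ℝ) (t : ℝ) : ℝ :=
  ∑ j : Fin n, c j * bspline ξ (ξ n) p j t

/-- The sup norm on the basic interval `[ξ p, ξ n]`. -/
noncomputable def supNorm (p n : ℕ) (ξ : ℕ → ℝ) (s : ℝ → ℝ) : ℝ :=
  ⨆ t : Icc (ξ p) (ξ n), |s t|

/-- The knot vector is admissible: `p ≥ 1`, at least `p + 1` splines, nondecreasing knots, a
nondegenerate basic interval, and B-splines with nonempty support which sum to one. -/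
def IsKnotVector (p n : ℕ) (ξ : ℕ → ℝ) : Prop :=
  1 ≤ p ∧ p + 1 ≤ n ∧ Monotone ξ ∧ ξ p < ξ n ∧ (∀ i < n, ξ i < ξ (i + p + 1)) ∧
    ∀ t ∈ Icc (ξ p) (ξ n), ∑ j : Fin n, bspline ξ (ξ n) p j t = 1

/-- The points `x_1 < … < x_n` are unisolvent: `B_i(x_i) > 0`. -/
def IsUnisolvent (p n : ℕ) (ξ : ℕ → ℝ) (x : Fin n → ℝ) : Prop :=
  StrictMono x ∧ (∀ i, x i ∈ Icc (ξ p) (ξ n)) ∧ ∀ i : Fin n, 0 < bspline ξ (ξ n) p i (x i)

/-- `w` are the interpolatory weights: `∑ w_k B_j(x_k) = ∫ ρ B_j` for all `j`. -/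
def IsWeights (p n : ℕ) (ξ : ℕ → ℝ) (ρ : ℝ → ℝ) (x w : Fin n → ℝ) : Prop :=
  ∀ j : Fin n, ∑ k : Fin n, w k * bspline ξ (ξ n) p j (x k) =
    ∫ t in (ξ p)..(ξ n), ρ t * bspline ξ (ξ n) p j t

/-- `c` are the coefficients of the equioscillating spline: value `(-1)^i` at `x_i`
(`i = 0, …, n - 1`). -/
def IsEquioscillating (p n : ℕ) (ξ : ℕ → ℝ) (x c : Fin n → ℝ) : Prop :=
  ∀ i : Fin n, spline p n ξ c (x i) = (-1) ^ (i : ℕ)

/-- Six knots at `-1` and six at `1`. -/
def knots (i : ℕ) : ℝ := if i ≤ 5 then -1 else 1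

lemma bspline_zero (t : ℝ) (ht : t ∈ Icc (-1 : ℝ) 1) (i : ℕ) :
    bspline knots 1 0 i t = if i = 5 then 1 else 0 := by
  obtain ⟨h1, h2⟩ := ht
  have key : ((t < 1 ∧ knots i ≤ t ∧ t < knots (i + 1)) ∨
      (t = 1 ∧ knots i < 1 ∧ 1 ≤ knots (i + 1))) ↔ i = 5 := by
    unfold knots
    rcases lt_trichotomy i 5 with h | h | h
    · have a1 : i ≤ 5 := h.le
      have a2 : i + 1 ≤ 5 := h
      rw [if_pos a1, if_pos a2]
      refine ⟨?_, fun h' => absurd h' h.ne⟩
      rintro (⟨_, h3, h4⟩ | ⟨_, h3, h4⟩) <;> linarith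
    · subst h
      simp only [le_refl, if_true, iff_true]
      rw [if_neg (by norm_num)]
      rcases h2.lt_or_eq with h3 | h3
      · left; exact ⟨h3, h1, h3⟩
      · right; exact ⟨h3, by norm_num, le_rfl⟩
    · have a1 : ¬ i ≤ 5 := by omega
      have a2 : ¬ i + 1 ≤ 5 := by omega
      rw [if_neg a1, if_neg a2]
      refine ⟨?_, fun h' => absurd h' h.ne'⟩
      rintro (⟨h3, h4, h5⟩ | ⟨_, h3, h4⟩) <;> linarith
  show (if _ then (1 : ℝ) else 0) = _
  simp only [key]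

lemma bspline_succ (ξ : ℕ → ℝ) (r : ℝ) (d i : ℕ) (x : ℝ) :
    bspline ξ r (d + 1) i x = (x - ξ i) / (ξ (i + d + 1) - ξ i) * bspline ξ r d i x
      + (ξ (i + d + 2) - x) / (ξ (i + d + 2) - ξ (i + 1)) * bspline ξ r d (i + 1) x := rfl

/-- the Bernstein polynomials -/
noncomputable def bern (j : ℕ) (t : ℝ) : ℝ :=
  (Nat.choose 5 j : ℝ) * ((1 + t) / 2) ^ j * ((1 - t) / 2) ^ (5 - j)

lemma bspline_five (t : ℝ) (ht : t ∈ Icc (-1 : ℝ) 1) (j : Fin 6) :
    bspline knots 1 5 j t = bern j t := by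
  have h := bspline_zero t ht
  have h5 : bspline knots 1 5 j t = bspline knots 1 (0 + 1 + 1 + 1 + 1 + 1) j t := rfl
  rw [h5]
  simp only [bspline_succ, h, knots]
  fin_cases j <;> norm_num [bern, Nat.choose] <;> ring

/-- The equioscillating polynomial. -/
lemma cpoly_bound (t : ℝ) (ht : t ∈ Icc (-1 : ℝ) 1) :
    |(-6691 * t + 26357 * t ^ 3 - 20800 * t ^ 5) / 1134| ≤ 13 / 10 := by
  have key : ∀ s : ℝ, -1 ≤ s → s ≤ 1 →
      -6691 * s + 26357 * s ^ 3 - 20800 * s ^ 5 ≤ 13 / 10 * 1134 := by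
    intro s h1 h2
    have e1 : 0 ≤ (1 + s) * (s ^ 2 - 503 / 1000 * s - 507 / 2000) ^ 2 :=
      mul_nonneg (by linarith) (sq_nonneg _)
    nlinarith [e1, mul_nonneg (by linarith : 0 ≤ 1 + s) (by linarith : 0 ≤ 1 - s),
      mul_nonneg (mul_nonneg (by linarith : 0 ≤ 1 + s) (by linarith : 0 ≤ 1 - s)) (sq_nonneg s),
      sq_nonneg (s ^ 2 - 503 / 1000 * s - 507 / 2000), sq_nonneg s]
  obtain ⟨h1, h2⟩ := ht
  rw [abs_le]
  constructor
  · have := key (-t) (by linarith) (by linarith)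
    rw [le_div_iff₀ (by norm_num)]
    nlinarith
  · have := key t h1 h2
    rw [div_le_iff₀ (by norm_num)]
    linarith

/-- The nodes. -/
noncomputable def nodes : Fin 6 → ℝ := ![-1, -7 / 8, -1 / 5, 1 / 5, 7 / 8, 1]

/-- The weights. -/
noncomputable def weights : Fin 6 → ℝ :=
  ![-91 / 540, 32768 / 52245, 22625 / 41796, 22625 / 41796, 32768 / 52245, -91 / 540]

/-- The coefficients of the equioscillating spline. -/
noncomputable def coeffs : Fin 6 → ℝ :=
  ![1, -1919 / 189, 68524 / 2835, -68524 / 2835, 1919 / 189, -1]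

lemma knots_five : knots 5 = -1 := by norm_num [knots]
lemma knots_six : knots 6 = 1 := by norm_num [knots]

lemma nv0 : nodes 0 = -1 := rfl
lemma nv1 : nodes 1 = -7 / 8 := rfl
lemma nv2 : nodes 2 = -1 / 5 := rfl
lemma nv3 : nodes 3 = 1 / 5 := rfl
lemma nv4 : nodes 4 = 7 / 8 := rfl
lemma nv5 : nodes 5 = 1 := rfl
lemma wv0 : weights 0 = -91 / 540 := rfl
lemma wv1 : weights 1 = 32768 / 52245 := rfl
lemma wv2 : weights 2 = 22625 / 41796 := rfl
lemma wv3 : weights 3 = 22625 / 41796 := rfl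
lemma wv4 : weights 4 = 32768 / 52245 := rfl
lemma wv5 : weights 5 = -91 / 540 := rfl
lemma cv0 : coeffs 0 = 1 := rfl
lemma cv1 : coeffs 1 = -1919 / 189 := rfl
lemma cv2 : coeffs 2 = 68524 / 2835 := rfl
lemma cv3 : coeffs 3 = -68524 / 2835 := rfl
lemma cv4 : coeffs 4 = 1919 / 189 := rfl
lemma cv5 : coeffs 5 = -1 := rfl

lemma knots_mono : Monotone knots := by
  intro i j hij
  unfold knots
  split_ifs with h1 h2
  · exact le_rfl
  · norm_num
  · omega
  · exact le_rfl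

lemma nodes_mem (i : Fin 6) : nodes i ∈ Icc (-1 : ℝ) 1 := by
  fin_cases i <;> simp only [Fin.zero_eta, Fin.mk_one, Fin.reduceFinMk,
    nv0, nv1, nv2, nv3, nv4, nv5, mem_Icc] <;> norm_num

lemma isKnotVector : IsKnotVector 5 6 knots := by
  refine ⟨by norm_num, by norm_num, knots_mono, ?_, ?_, ?_⟩
  · rw [knots_five, knots_six]; norm_num
  · intro i hi
    unfold knots
    rw [if_pos (by omega), if_neg (by omega)]
    norm_num
  · intro t ht
    rw [knots_five, knots_six] at ht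
    rw [knots_six]
    simp only [bspline_five t ht]
    simp only [Fin.sum_univ_six, bern]
    norm_num [Nat.choose]
    ring

lemma isUnisolvent : IsUnisolvent 5 6 knots nodes := by
  refine ⟨?_, ?_, ?_⟩
  · refine Fin.strictMono_iff_lt_succ.2 ?_
    intro i
    fin_cases i
    · show nodes 0 < nodes 1
      norm_num [nv0, nv1]
    · show nodes 1 < nodes 2
      norm_num [nv1, nv2]
    · show nodes 2 < nodes 3
      norm_num [nv2, nv3]
    · show nodes 3 < nodes 4
      norm_num [nv3, nv4]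
    · show nodes 4 < nodes 5
      norm_num [nv4, nv5]
  · intro i
    rw [knots_five, knots_six]
    exact nodes_mem i
  · intro i
    rw [knots_six, bspline_five _ (nodes_mem i)]
    fin_cases i <;> simp only [Fin.zero_eta, Fin.mk_one, Fin.reduceFinMk,
      nv0, nv1, nv2, nv3, nv4, nv5] <;> norm_num [bern, Nat.choose]

lemma int_poly (a b c d e f : ℝ) :
    ∫ t in (-1 : ℝ)..1, (a + b * t + c * t ^ 2 + d * t ^ 3 + e * t ^ 4 + f * t ^ 5) =
      2 * a + 2 / 3 * c + 2 / 5 * e := by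
  have h : ∀ t ∈ uIcc (-1 : ℝ) 1, HasDerivAt (fun t : ℝ => a * t + b * (t ^ 2 / 2) + c * (t ^ 3 / 3)
      + d * (t ^ 4 / 4) + e * (t ^ 5 / 5) + f * (t ^ 6 / 6))
      (a + b * t + c * t ^ 2 + d * t ^ 3 + e * t ^ 4 + f * t ^ 5) t := by
    intro t _
    have h1 : HasDerivAt (fun t : ℝ => a * t) (a * 1) t := (hasDerivAt_id t).const_mul a
    have h2 : HasDerivAt (fun t : ℝ => b * (t ^ 2 / 2)) (b * (((2 : ℕ) : ℝ) * t ^ (2 - 1) / 2)) t :=
      ((hasDerivAt_pow 2 t).div_const 2).const_mul b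
    have h3 : HasDerivAt (fun t : ℝ => c * (t ^ 3 / 3)) (c * (((3 : ℕ) : ℝ) * t ^ (3 - 1) / 3)) t :=
      ((hasDerivAt_pow 3 t).div_const 3).const_mul c
    have h4 : HasDerivAt (fun t : ℝ => d * (t ^ 4 / 4)) (d * (((4 : ℕ) : ℝ) * t ^ (4 - 1) / 4)) t :=
      ((hasDerivAt_pow 4 t).div_const 4).const_mul d
    have h5 : HasDerivAt (fun t : ℝ => e * (t ^ 5 / 5)) (e * (((5 : ℕ) : ℝ) * t ^ (5 - 1) / 5)) t :=
      ((hasDerivAt_pow 5 t).div_const 5).const_mul e
    have h6 : HasDerivAt (fun t : ℝ => f * (t ^ 6 / 6)) (f * (((6 : ℕ) : ℝ) * t ^ (6 - 1) / 6)) t :=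
      ((hasDerivAt_pow 6 t).div_const 6).const_mul f
    have := ((((h1.add h2).add h3).add h4).add h5).add h6
    exact this.congr_deriv (by norm_num)
  rw [intervalIntegral.integral_eq_sub_of_hasDerivAt h
    ((by fun_prop : Continuous _).intervalIntegrable _ _)]
  ring

lemma int_bern (j : Fin 6) : ∫ t in (-1 : ℝ)..1, bern j t = 1 / 3 := by
  fin_cases j
  · rw [show (fun t => bern ((⟨0, by norm_num⟩ : Fin 6) : ℕ) t) = fun t => (1 / 32 : ℝ)
      + (-5 / 32) * t + (10 / 32) * t ^ 2 + (-10 / 32) * t ^ 3 + (5 / 32) * t ^ 4 + (-1 / 32) * t ^ 5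
      from by funext t; norm_num [bern, Nat.choose]; ring, int_poly]
    norm_num
  · rw [show (fun t => bern ((⟨1, by norm_num⟩ : Fin 6) : ℕ) t) = fun t => (5 / 32 : ℝ)
      + (-15 / 32) * t + (10 / 32) * t ^ 2 + (10 / 32) * t ^ 3 + (-15 / 32) * t ^ 4 + (5 / 32) * t ^ 5
      from by funext t; norm_num [bern, Nat.choose]; ring, int_poly]
    norm_num
  · rw [show (fun t => bern ((⟨2, by norm_num⟩ : Fin 6) : ℕ) t) = fun t => (10 / 32 : ℝ)
      + (-10 / 32) * t + (-20 / 32) * t ^ 2 + (20 / 32) * t ^ 3 + (10 / 32) * t ^ 4 + (-10 / 32) * t ^ 5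
      from by funext t; norm_num [bern, Nat.choose]; ring, int_poly]
    norm_num
  · rw [show (fun t => bern ((⟨3, by norm_num⟩ : Fin 6) : ℕ) t) = fun t => (10 / 32 : ℝ)
      + (10 / 32) * t + (-20 / 32) * t ^ 2 + (-20 / 32) * t ^ 3 + (10 / 32) * t ^ 4 + (10 / 32) * t ^ 5
      from by funext t; norm_num [bern, Nat.choose]; ring, int_poly]
    norm_num
  · rw [show (fun t => bern ((⟨4, by norm_num⟩ : Fin 6) : ℕ) t) = fun t => (5 / 32 : ℝ)
      + (15 / 32) * t + (10 / 32) * t ^ 2 + (-10 / 32) * t ^ 3 + (-15 / 32) * t ^ 4 + (-5 / 32) * t ^ 5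
      from by funext t; norm_num [bern, Nat.choose]; ring, int_poly]
    norm_num
  · rw [show (fun t => bern ((⟨5, by norm_num⟩ : Fin 6) : ℕ) t) = fun t => (1 / 32 : ℝ)
      + (5 / 32) * t + (10 / 32) * t ^ 2 + (10 / 32) * t ^ 3 + (5 / 32) * t ^ 4 + (1 / 32) * t ^ 5
      from by funext t; norm_num [bern, Nat.choose]; ring, int_poly]
    norm_num

lemma isWeights : IsWeights 5 6 knots (fun _ => 1) nodes weights := by
  intro j
  rw [knots_five, knots_six]
  have h1 : ∀ k : Fin 6, bspline knots 1 5 j (nodes k) = bern j (nodes k) :=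
    fun k => bspline_five _ (nodes_mem k) j
  simp only [h1]
  have h2 : ∫ t in (-1 : ℝ)..1, (1 : ℝ) * bspline knots 1 5 j t = ∫ t in (-1 : ℝ)..1, bern j t := by
    apply intervalIntegral.integral_congr
    intro t ht
    rw [uIcc_of_le (by norm_num)] at ht
    simp only [one_mul]
    exact bspline_five t ht j
  rw [h2, int_bern]
  fin_cases j <;> simp only [Fin.sum_univ_six, nv0, nv1, nv2, nv3, nv4, nv5,
    wv0, wv1, wv2, wv3, wv4, wv5] <;> norm_num [bern, Nat.choose]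

lemma isEquioscillating : IsEquioscillating 5 6 knots nodes coeffs := by
  intro i
  unfold spline
  rw [knots_six]
  simp only [bspline_five _ (nodes_mem i)]
  simp only [Fin.sum_univ_six, cv0, cv1, cv2, cv3, cv4, cv5]
  fin_cases i
  · show _ = (-1 : ℝ) ^ 0
    simp only [Fin.zero_eta, nv0]
    norm_num [bern, Nat.choose]
  · show _ = (-1 : ℝ) ^ 1
    simp only [Fin.mk_one, nv1]
    norm_num [bern, Nat.choose]
  · show _ = (-1 : ℝ) ^ 2
    simp only [Fin.reduceFinMk, nv2]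
    norm_num [bern, Nat.choose]
  · show _ = (-1 : ℝ) ^ 3
    simp only [Fin.reduceFinMk, nv3]
    norm_num [bern, Nat.choose]
  · show _ = (-1 : ℝ) ^ 4
    simp only [Fin.reduceFinMk, nv4]
    norm_num [bern, Nat.choose]
  · show _ = (-1 : ℝ) ^ 5
    simp only [Fin.reduceFinMk, nv5]
    norm_num [bern, Nat.choose]

/-- **The inequality `‖w‖₁ ≤ ‖c‖ I(1)` fails for the constant density.**  There are a degree, a
knot vector and unisolvent points for which the interpolatory weights `w` of `I(f) = ∫ f` and the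
equioscillating spline `c` satisfy `‖w‖₁ > ‖c‖ I(1)`. -/
theorem result : ∃ (p n : ℕ) (ξ : ℕ → ℝ) (x w c : Fin n → ℝ),
    IsKnotVector p n ξ ∧ IsUnisolvent p n ξ x ∧ IsWeights p n ξ (fun _ => 1) x w ∧
    IsEquioscillating p n ξ x c ∧
    supNorm p n ξ (spline p n ξ c) * (∫ _t in (ξ p)..(ξ n), (1 : ℝ)) < ∑ k : Fin n, |w k| := by
  refine ⟨5, 6, knots, nodes, weights, coeffs, isKnotVector, isUnisolvent, isWeights,
    isEquioscillating, ?_⟩
  have h1 : supNorm 5 6 knots (spline 5 6 knots coeffs) ≤ 13 / 10 := by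
    unfold supNorm
    have : Nonempty (Icc (knots 5) (knots 6)) :=
      ⟨⟨knots 5, left_mem_Icc.2 (knots_mono (by norm_num))⟩⟩
    apply ciSup_le
    rintro ⟨t, ht⟩
    rw [knots_five, knots_six] at ht
    simp only
    have h2 : spline 5 6 knots coeffs t = (-6691 * t + 26357 * t ^ 3 - 20800 * t ^ 5) / 1134 := by
      unfold spline
      rw [knots_six]
      simp only [bspline_five t ht]
      simp only [Fin.sum_univ_six, cv0, cv1, cv2, cv3, cv4, cv5]
      norm_num [bern, Nat.choose]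
      ring
    rw [h2]
    exact cpoly_bound t ht
  have h3 : (∫ _t in (knots 5)..(knots 6), (1 : ℝ)) = 2 := by
    rw [knots_five, knots_six]
    norm_num
  rw [h3]
  have h4 : ∑ k : Fin 6, |weights k| = 361 / 135 := by
    simp only [Fin.sum_univ_six, wv0, wv1, wv2, wv3, wv4, wv5]
    rw [abs_of_neg (by norm_num : (-91 / 540 : ℝ) < 0),
      abs_of_pos (by norm_num : (0 : ℝ) < 32768 / 52245),
      abs_of_pos (by norm_num : (0 : ℝ) < 22625 / 41796)]
    norm_num
  rw [h4]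
  linarith

end Pool.Agent.Results.MP_836f85_an.ConstantDensity
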